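import Mathlib
import Pool.Agent.Lib.MP_0828a1_co.Defs
import Pool.Agent.Lib.MP_0828a1_co.Dom

namespace Pool.Agent.Lib.MP_0828a1_co.UK

open Pool.Agent.Lib.MP_0828a1_co

/-- For `k ≥ 4` put `N = ⌊(3k+4)/2⌋`. On the part of `D_k` cut out by `x ≤ 3y` if `k = 6` and by
`(N-10) x ≤ 5 y` if `k ≥ 7` (all of `D_k` if `k = 4, 5`) the supremum `z_k(x,y)` is attained and
equals `max (1/(kx+y)) (2/(Nx+3y))`. -/
theorem twoFacets (k : ℕ) (hk : 4 ≤ k) (x y : ℝ) (hy : 0 ≤ y) (hx : -y / k < x)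
    (h6 : k = 6 → x ≤ 3 * y)
    (h7 : 7 ≤ k → ((((3 * k + 4) / 2 : ℕ) : ℝ) - 10) * x ≤ 5 * y) :
    IsGreatest (ratios k x y)
      (max (1 / (k * x + y)) (2 / ((((3 * k + 4) / 2 : ℕ) : ℝ) * x + 3 * y))) := by
  obtain ⟨r, rfl⟩ : ∃ r, k = r + 1 := ⟨k - 1, by omega⟩
  set ρ : ℕ := (3 * r + 1) / 2 with hρ
  have hN : (3 * (r + 1) + 4) / 2 = ρ + 3 := by omega
  rw [hN] at h7 ⊢
  have hr : (3 : ℝ) ≤ r := by exact_mod_cast (show 3 ≤ r by omega)
  have hρ1 : 3 * (r : ℝ) ≤ 2 * ρ := by exact_mod_cast (show 3 * r ≤ 2 * ρ by omega)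
  have hρ2 : 2 * (ρ : ℝ) ≤ 3 * r + 1 := by exact_mod_cast (show 2 * ρ ≤ 3 * r + 1 by omega)
  push_cast at hx h7 ⊢
  have hkx : 0 < (r + 1 : ℝ) * x + y := by
    rw [div_lt_iff₀ (by linarith)] at hx; linarith
  /- the denominators are positive -/
  have hden : ∀ (n : ℕ) (E : Finset (Finset (Fin n))), 0 < n → UniformNoIsolated (r + 1) E →
      0 < x * n + y * E.card := fun n E hn h => by
    have h1 : (n : ℝ) ≤ (r + 1) * E.card := by exact_mod_cast card_le_mul h
    have h2 : (0 : ℝ) < n := by exact_mod_cast hn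
    have h3 : (0 : ℝ) < r + 1 := by linarith
    have h4 := mul_le_mul_of_nonneg_left h1 hy
    have h5 := mul_pos hkx h2
    have : 0 < (r + 1 : ℝ) * (x * n + y * E.card) := by nlinarith
    exact (mul_pos_iff_of_pos_left h3).1 this
  /- the family of linear bounds along the second facet -/
  have hline : ∀ (n : ℕ) (E : Finset (Finset (Fin n))), UniformNoIsolated (r + 1) E →
      ∀ t : ℝ, 0 ≤ t → t ≤ 2 * r - ρ - 1 → 3 * ρ - 3 - 4 * r ≤ 3 * t → ρ - 7 ≤ 5 * t →
      (ρ + 3 + 3 * t) * domNumber E ≤ 2 * (n + t * E.card) := fun n E h t a1 a2 a3 a4 => by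
    have := dom_bound (by omega) h (a := (ρ - 1 - t) / 4) (b := (ρ + 3 + 3 * t) / 4)
      (by linarith) (by linarith) (by linarith) (by linarith) (by rw [← hρ]; linarith)
      (by linarith)
    linarith
  have hc0 : (0 : ℝ) ≤ 2 * r - ρ - 1 := by
    have : (ρ : ℝ) + 1 ≤ 2 * r := by exact_mod_cast (show ρ + 1 ≤ 2 * r by omega)
    linarith
  have hupper : ∀ t ∈ ratios (r + 1) x y,
      t ≤ max (1 / ((r + 1 : ℝ) * x + y)) (2 / ((ρ + 3 : ℝ) * x + 3 * y)) := by
    rintro _ ⟨n, E, hn, h, rfl⟩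
    have hd := hden n E hn h
    have h1 : (n : ℝ) ≤ (r + 1) * E.card := by exact_mod_cast card_le_mul h
    have hg : (0 : ℝ) ≤ domNumber E := by positivity
    have hcm := hline n E h _ hc0 le_rfl (by linarith) (by linarith)
    have hm : (domNumber E : ℝ) ≤ E.card := by
      have h2 : (0 : ℝ) < 3 * r - ρ := by linarith
      have : (3 * r - ρ : ℝ) * domNumber E ≤ (3 * r - ρ) * E.card := by linarith
      exact le_of_mul_le_mul_left this h2
    by_cases hxy : x ≤ 0 ∨ (2 * r - ρ - 1) * x ≤ y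
    · refine le_max_of_le_left ?_
      rw [div_le_div_iff₀ hd hkx]
      by_cases hx0 : x ≤ 0
      · have a1 := mul_le_mul_of_nonneg_right hm hkx.le
        have a2 := mul_le_mul_of_nonpos_left h1 hx0
        linarith
      · have a0 := hxy.resolve_left hx0
        have a1 := mul_le_mul_of_nonneg_left hcm (le_of_not_ge hx0)
        have a2 := mul_le_mul_of_nonneg_left hm (sub_nonneg.2 a0)
        linarith
    · push Not at hxy
      obtain ⟨hx0, hxy⟩ := hxy
      refine le_max_of_le_right ?_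
      have hρ0 : (0 : ℝ) ≤ ρ := by positivity
      rw [div_le_div_iff₀ hd (by positivity)]
      have ht : y / x * x = y := div_mul_cancel₀ _ hx0.ne'
      have hle : ∀ c d : ℝ, c * x ≤ d * y → c ≤ d * (y / x) := fun c d hc => by
        rw [← mul_div_assoc, le_div_iff₀ hx0]; exact hc
      have key : 3 * ρ - 3 - 4 * r ≤ 3 * (y / x) ∧ ρ - 7 ≤ 5 * (y / x) := by
        have h0 : 0 ≤ y / x := by positivity
        rcases (show r ≤ 4 ∨ r = 5 ∨ 6 ≤ r by omega) with e | e | e
        · have e1 : 3 * (ρ : ℝ) ≤ 3 + 4 * r := by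
            exact_mod_cast (show 3 * ρ ≤ 3 + 4 * r by omega)
          have e2 : (ρ : ℝ) ≤ 7 := by exact_mod_cast (show ρ ≤ 7 by omega)
          constructor <;> linarith
        · have e1 : (r : ℝ) = 5 := by exact_mod_cast e
          have e2 : (ρ : ℝ) = 8 := by exact_mod_cast (show ρ = 8 by omega)
          have := hle 1 3 (by linarith [h6 (by omega)])
          constructor <;> linarith
        · have e1 : (6 : ℝ) ≤ r := by exact_mod_cast e
          have := hle (ρ - 7) 5 (by linarith [h7 (by omega)])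
          constructor <;> linarith
      have a1 := hline n E h (y / x) (by positivity)
        (by rw [div_le_iff₀ hx0]; exact hxy.le) key.1 key.2
      have a2 := mul_le_mul_of_nonneg_left a1 hx0.le
      have e1 : x * ((ρ + 3 + 3 * (y / x)) * domNumber E) =
          domNumber E * ((ρ + 3) * x + 3 * (y / x * x)) := by ring
      have e2 : x * (2 * (n + y / x * E.card)) = 2 * (x * n + (y / x * x) * E.card) := by ring
      rw [e1, e2, ht] at a2
      exact a2
  refine ⟨?_, hupper⟩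
  rcases le_total (1 / ((r + 1 : ℝ) * x + y)) (2 / ((ρ + 3 : ℝ) * x + 3 * y)) with hc | hc
  · obtain ⟨E, h, hE, hg⟩ := ex_triangle r ρ (by omega) (by omega) (by omega)
    have hu := hupper _ ⟨_, E, by omega, h, rfl⟩
    have hd := hden _ E (by omega) h
    refine ⟨_, E, by omega, h, le_antisymm ?_ hu⟩
    rw [max_eq_right hc, hE] at *
    push_cast at hd ⊢
    rw [mul_comm x, mul_comm y]
    rw [mul_comm x, mul_comm y] at hd
    exact div_le_div_of_nonneg_right (by exact_mod_cast hg) hd.le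
  · obtain ⟨E, h, hE, hg⟩ := ex_single (r + 1) (by omega)
    have hu := hupper _ ⟨_, E, by omega, h, rfl⟩
    refine ⟨_, E, by omega, h, le_antisymm ?_ hu⟩
    rw [max_eq_left hc, hE]
    push_cast
    rw [mul_comm x, mul_one]
    exact div_le_div_of_nonneg_right (by exact_mod_cast hg) hkx.le

end Pool.Agent.Lib.MP_0828a1_co.UK
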