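import Mathlib
import Pool.Agent.Lib.MP_0828a1_co.Defs
import Pool.Agent.Lib.MP_0828a1_co.UK.Two
import Pool.Agent.Lib.MP_0828a1_co.Six

namespace Pool.Agent.Lib.MP_0828a1_co.UK

open Pool.Agent.Lib.MP_0828a1_co

/-- For `k = 6` the supremum `z_6(x,y)` is attained at every point of `D_6` and equals the largest
of `1/(6x+y)`, `2/(11x+3y)` and `3/(16x+6y)`. -/
theorem sixUniform (x y : ℝ) (hy : 0 ≤ y) (hx : -y / 6 < x) :
    IsGreatest (ratios 6 x y)
      (max (1 / (6 * x + y)) (max (2 / (11 * x + 3 * y)) (3 / (16 * x + 6 * y)))) := by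
  obtain ⟨E0, u0, c0, g0⟩ := ex_design
  have hp : 0 < 16 * x + 6 * y := by linarith
  have m0 : (domNumber E0 : ℝ) / (16 * x + 6 * y) ∈ ratios 6 x y :=
    ⟨16, E0, by omega, u0, by rw [c0]; push_cast; ring⟩
  have l0 : 3 / (16 * x + 6 * y) ≤ (domNumber E0 : ℝ) / (16 * x + 6 * y) :=
    div_le_div_of_nonneg_right (by exact_mod_cast g0) hp.le
  rcases le_total x (3 * y) with h | h
  · have t := twoFacets 6 (by omega) x y hy (by exact_mod_cast hx) (fun _ => h) (by omega)
    norm_num only at t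
    rwa [← max_assoc, max_eq_left (l0.trans (t.2 m0))]
  have hx0 : 0 < x := by linarith
  have up : ∀ t ∈ ratios 6 x y, t ≤ 3 / (16 * x + 6 * y) := by
    rintro _ ⟨n, E, hn, u, rfl⟩
    have n0 : (0 : ℝ) < n := by exact_mod_cast hn
    have m0 : (0 : ℝ) ≤ E.card := by positivity
    have a1 : 16 * (domNumber E : ℝ) ≤ 3 * n := by exact_mod_cast dom_six u
    have a2 := (twoFacets 6 (by omega) 3 1 (by norm_num) (by norm_num) (by norm_num)
      (by omega)).2 ⟨n, E, hn, u, rfl⟩
    norm_num only at a2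
    rw [max_eq_right (by norm_num), div_le_iff₀ (by positivity)] at a2
    rw [div_le_div_iff₀ (by positivity) hp]
    nlinarith [mul_le_mul_of_nonneg_left a1 (sub_nonneg.2 h), mul_le_mul_of_nonneg_left a2 hy]
  have e : max (1 / (6 * x + y)) (max (2 / (11 * x + 3 * y)) (3 / (16 * x + 6 * y))) =
      3 / (16 * x + 6 * y) := by
    rw [max_eq_right (a := 2 / (11 * x + 3 * y)), max_eq_right] <;>
      rw [div_le_div_iff₀ (by positivity) hp] <;> linarith
  rw [e]
  exact ⟨le_antisymm (up _ m0) l0 ▸ m0, up⟩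

end Pool.Agent.Lib.MP_0828a1_co.UK
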