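import Mathlib
import Pool.Agent.Results.MP_0828a1_co.SmallK

/-! The statements of the two earlier hand-ins follow from the statement of `SmallK` by
arithmetic alone. -/

namespace Pool.Agent.Lib.MP_0828a1_co.UK

open Pool.Agent.Lib.MP_0828a1_co Pool.Agent.Results.MP_0828a1_co

theorem six_of (x y : ℝ) (hy : 0 ≤ y) (hx : -y / 6 < x) :
    IsGreatest (ratios 6 x y)
      (max (1 / (6 * x + y)) (max (2 / (11 * x + 3 * y)) (3 / (16 * x + 6 * y)))) := by
  have t := SmallK.result 6 (by omega) x y hy (by exact_mod_cast hx) (by omega)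
  norm_num only at t ⊢
  exact t

/-- On the region of the earlier hand-in the third term does not exceed the second. -/
theorem third_le (k : ℕ) (hk : 4 ≤ k) (x y : ℝ) (hy : 0 ≤ y) (hx : -y / k < x)
    (h6 : k = 6 → x ≤ 3 * y)
    (h7 : 7 ≤ k → ((((3 * k + 4) / 2 : ℕ) : ℝ) - 10) * x ≤ 5 * y) :
    3 / ((2 * k + 4) * x + 6 * y) ≤ 2 / ((((3 * k + 4) / 2 : ℕ) : ℝ) * x + 3 * y) := by
  have hk' : (4 : ℝ) ≤ k := by exact_mod_cast hk
  rw [div_lt_iff₀ (by linarith)] at hx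
  obtain ⟨N, hN⟩ : ∃ N : ℕ, N = (3 * k + 4) / 2 := ⟨_, rfl⟩
  rw [← hN] at h7 ⊢
  have n1 : 2 * (N : ℝ) ≤ 3 * k + 4 := by exact_mod_cast (show 2 * N ≤ 3 * k + 4 by omega)
  have n2 : 3 * (k : ℝ) + 3 ≤ 2 * N := by exact_mod_cast (show 3 * k + 3 ≤ 2 * N by omega)
  have pos : ∀ a b : ℝ, 0 < a → a ≤ b * k → 0 < a * x + b * y := fun a b ha hab => by
    have : 0 < k * (a * x + b * y) := by
      nlinarith [mul_pos ha (show 0 < x * k + y by linarith), mul_le_mul_of_nonneg_right hab hy]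
    exact (mul_pos_iff_of_pos_left (by linarith)).1 this
  rw [div_le_div_iff₀ (pos _ _ (by linarith) (by linarith)) (pos _ _ (by linarith) (by linarith))]
  rcases (show k = 4 ∨ k = 5 ∨ k = 6 ∨ 7 ≤ k by omega) with e | e | e | e
  · obtain rfl : N = 8 := by omega
    subst e
    push_cast at hx ⊢
    linarith
  · obtain rfl : N = 9 := by omega
    subst e
    push_cast at hx ⊢
    linarith
  · obtain rfl : N = 11 := by omega
    have := h6 e
    subst e
    push_cast at hx ⊢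
    linarith
  · have a := h7 e
    have e' : (7 : ℝ) ≤ k := by exact_mod_cast e
    have n3 : 4 * (k : ℝ) + 8 ≤ 3 * N := by exact_mod_cast (show 4 * k + 8 ≤ 3 * N by omega)
    rcases le_total x 0 with h | h
    · nlinarith [mul_le_mul_of_nonpos_right n3 h]
    · nlinarith [mul_le_mul_of_nonneg_right (show 12 * (N : ℝ) ≤ 20 * k + 10 by linarith) h]

theorem two_of (k : ℕ) (hk : 4 ≤ k) (x y : ℝ) (hy : 0 ≤ y) (hx : -y / k < x)
    (h6 : k = 6 → x ≤ 3 * y)
    (h7 : 7 ≤ k → ((((3 * k + 4) / 2 : ℕ) : ℝ) - 10) * x ≤ 5 * y) :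
    IsGreatest (ratios k x y)
      (max (1 / (k * x + y)) (2 / ((((3 * k + 4) / 2 : ℕ) : ℝ) * x + 3 * y))) := by
  have t := SmallK.result k hk x y hy hx h7
  rwa [max_eq_left (third_le k hk x y hy hx h6 h7)] at t

end Pool.Agent.Lib.MP_0828a1_co.UK
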